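import Mathlib
import Pool.Agent.Lib.MP_a2d8aa_co.Rg.RankSix

/-!
The positive semidefinite graph complement conjecture `mr₊(G) + mr₊(Gᶜ) ≤ n + 2` for all graphs
`G` on at most ten vertices and for all graphs `G` such that `G` or `Gᶜ` is acyclically
5-colourable (for example planar, by the theorem of Borodin, or of tree-width at most four), has
maximum degree at most five, is 3-degenerate without a subgraph `K_{3,4}`, or has a complement of
positive semidefinite minimum rank at most six.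
-/

set_option autoImplicit false

open Matrix

namespace Pool.Agent.Results.MP_a2d8aa_co.AcyclicFive

open Pool.Agent.Lib.MP_a2d8aa_co.Rg

theorem filter_card {n : ℕ} (H : SimpleGraph (Fin n)) [DecidableRel H.Adj] (W : Finset (Fin n))
    (u : Fin n) : (W.filter (fun v => H.Adj u v)).card = {v | v ∈ W ∧ H.Adj u v}.ncard := by
  rw [← Set.ncard_coe_finset]
  congr 1
  ext v
  simp

theorem psdRank_mono {n r s : ℕ} {G : SimpleGraph (Fin n)} (hrs : r ≤ s) (h : PsdRank G r) :
    PsdRank G s := by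
  obtain ⟨A, h1, h2, h3⟩ := h
  exact ⟨A, h1, h2, h3.trans hrs⟩

/-- graphs of maximum degree at most five -/
theorem of_deg {n : ℕ} (H : SimpleGraph (Fin n)) (h : ∀ v, (H.neighborSet v).ncard ≤ 5) :
    PsdRank Hᶜ 6 := by
  classical
  by_cases hn : n ≤ 6
  · have h1 : PsdRank Hᶜ n := by
      rcases Nat.eq_zero_or_pos n with hn | hn
      · subst hn
        exact PsdRank.of_rep (fun u => u.elim0) (fun u => u.elim0)
      · have : Nonempty (Fin n) := ⟨⟨0, hn⟩⟩
        exact PsdRank.of_sub Hᶜ (U := Finset.univ) Finset.univ_nonempty 0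
          (fun u _ => Nat.zero_le _)
    exact psdRank_mono hn h1
  · have : Nonempty (Fin n) := ⟨⟨0, by omega⟩⟩
    have h1 := PsdRank.of_sub Hᶜ (U := Finset.univ) Finset.univ_nonempty (n - 6)
      (fun u _ => by
        have h2 := h u
        have h3 : (H.neighborSet u).ncard = H.degree u := by
          rw [Set.ncard_eq_toFinset_card', ← SimpleGraph.card_neighborFinset_eq_degree]
          congr 1
        have h4 : Hᶜ.degree u = Fintype.card (Fin n) - 1 - H.degree u :=
          SimpleGraph.degree_compl H u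
        rw [Fintype.card_fin, ← SimpleGraph.card_neighborFinset_eq_degree,
          SimpleGraph.neighborFinset_eq_filter] at h4
        omega)
    have h5 : n - (n - 6) = 6 := by omega
    rwa [h5] at h1

/-- 3-degenerate graphs without `K_{3,4}` -/
theorem of_deg_three {n : ℕ} (H : SimpleGraph (Fin n))
    (h : ∀ W : Finset (Fin n), W.Nonempty → ∃ u ∈ W, {v | v ∈ W ∧ H.Adj u v}.ncard ≤ 3)
    (hK : ∀ P Q : Finset (Fin n), P.card = 3 → Q.card = 4 → ¬ ∀ p ∈ P, ∀ q ∈ Q, H.Adj p q) :
    PsdRank Hᶜ 6 := by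
  classical
  exact PsdRank.of_degenK H (D := 3) (by norm_num) (fun W hW => by
    obtain ⟨u, hu, h1⟩ := h W hW
    exact ⟨u, hu, by rw [filter_card]; exact h1⟩) hK

/-- acyclically 5-colourable graphs -/
theorem of_coloring {n : ℕ} (H : SimpleGraph (Fin n)) (col : Fin n → Fin 5)
    (h1 : ∀ u v, H.Adj u v → col u ≠ col v)
    (h2 : ∀ s t : Fin 5, (H.induce {v | col v = s ∨ col v = t}).IsAcyclic) : PsdRank Hᶜ 6 :=
  PsdRank.of_reg (regX_of_coloring H col h1 h2).reg

/-- Let `G` be a graph on `n` vertices and let `H` be `G` or `Gᶜ`.  If `n ≤ 10`, or `H` is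
acyclically 5-colourable, has maximum degree at most five, is 3-degenerate without a subgraph
`K_{3,4}`, or its complement has a positive semidefinite matrix of rank at most six, then there
are positive semidefinite matrices with graphs `G` and `Gᶜ` whose ranks sum to at most `n + 2`. -/
theorem result :
    ∀ (n : ℕ) (G H : SimpleGraph (Fin n)), (H = G ∨ H = Gᶜ) →
      (n ≤ 10 ∨
       (∃ col : Fin n → Fin 5, (∀ u v, H.Adj u v → col u ≠ col v) ∧
          ∀ s t : Fin 5, (H.induce {v | col v = s ∨ col v = t}).IsAcyclic) ∨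
       (∀ v, (H.neighborSet v).ncard ≤ 5) ∨
       ((∀ W : Finset (Fin n), W.Nonempty → ∃ u ∈ W, {v | v ∈ W ∧ H.Adj u v}.ncard ≤ 3) ∧
         ∀ P Q : Finset (Fin n), P.card = 3 → Q.card = 4 → ¬ ∀ p ∈ P, ∀ q ∈ Q, H.Adj p q) ∨
       (∃ C : Matrix (Fin n) (Fin n) ℝ, C.PosSemidef ∧
          (∀ i j, i ≠ j → (C i j ≠ 0 ↔ Hᶜ.Adj i j)) ∧ C.rank ≤ 6)) →
      ∃ A B : Matrix (Fin n) (Fin n) ℝ,
        A.PosSemidef ∧ (∀ i j, i ≠ j → (A i j ≠ 0 ↔ G.Adj i j)) ∧
        B.PosSemidef ∧ (∀ i j, i ≠ j → (B i j ≠ 0 ↔ Gᶜ.Adj i j)) ∧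
        A.rank + B.rank ≤ n + 2 := by
  intro n G H hGH hcl
  have h6 : ∃ a b : ℕ, a + b ≤ n + 2 ∧ PsdRank H a ∧ PsdRank Hᶜ b := by
    rcases hcl with h | ⟨col, h1, h2⟩ | h | h | h
    · exact ten_vertices h H
    · exact rank_six H (of_coloring H col h1 h2)
    · exact rank_six H (of_deg H h)
    · exact rank_six H (of_deg_three H h.1 h.2)
    · exact rank_six H h
  obtain ⟨a, b, hab, ⟨A, hA1, hA2, hA3⟩, ⟨B, hB1, hB2, hB3⟩⟩ := h6
  rcases hGH with rfl | rfl
  · exact ⟨A, B, hA1, hA2, hB1, hB2, by omega⟩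
  · refine ⟨B, A, hB1, ?_, hA1, hA2, by omega⟩
    rwa [compl_compl] at hB2

end Pool.Agent.Results.MP_a2d8aa_co.AcyclicFive
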