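import Pool.Agent.Lib.MP_a2d8aa_co.AA.Main

/-!
# MP_a2d8aa_co: the positive semidefinite graph complement conjecture holds for almost all graphs

For every fixed `p` with `0 < p < 1` and every real `C`, the random graph `G(n,p)` has, with
probability tending to `1`, positive semidefinite matrices `A` with graph `G` and `B` with graph
`Gᶜ` such that `rank A ≤ (1 - p) n - C √n` and `rank B ≤ p n - C √n`; in particular
`rank A + rank B ≤ n + 2`.  The probability is written out as a sum over all graphs on `Fin n`
(for `p = 1 / 2` every graph has the same weight).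
-/

set_option autoImplicit false

open scoped Classical

noncomputable section

namespace Pool.Agent.Results.MP_a2d8aa_co.AlmostAllGraphs

/-- For `0 < p < 1` and every real `C`, the random graph `G(n,p)` satisfies with probability
tending to `1`: there are positive semidefinite matrices `A`, `B` with graphs `G`, `Gᶜ` and
`rank A ≤ (1 - p) n - C √n`, `rank B ≤ p n - C √n`. -/
theorem result (p : ℝ) (hp0 : 0 < p) (hp1 : p < 1) (C : ℝ) :
    Filter.Tendsto (fun n : ℕ => ∑ G : SimpleGraph (Fin n),
      if (∃ A B : Matrix (Fin n) (Fin n) ℝ,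
          A.PosSemidef ∧ (∀ i j, i ≠ j → (A i j ≠ 0 ↔ G.Adj i j)) ∧
          B.PosSemidef ∧ (∀ i j, i ≠ j → (B i j ≠ 0 ↔ Gᶜ.Adj i j)) ∧
          (A.rank : ℝ) ≤ (1 - p) * n - C * Real.sqrt n ∧
          (B.rank : ℝ) ≤ p * n - C * Real.sqrt n)
      then p ^ G.edgeSet.ncard * (1 - p) ^ Gᶜ.edgeSet.ncard else 0)
      Filter.atTop (nhds 1) :=
  Pool.Agent.Lib.MP_a2d8aa_co.AA.main p hp0 hp1 C

end Pool.Agent.Results.MP_a2d8aa_co.AlmostAllGraphs
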