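import Mathlib
import Pool.Agent.Lib.MP_a2d8aa_co.Rg.RankFive
import Pool.Agent.Lib.MP_a2d8aa_co.Kf.Main
import Pool.Agent.Lib.MP_a2d8aa_co.Kf.Free

/-!
The positive semidefinite graph complement conjecture `mr₊(G) + mr₊(Gᶜ) ≤ n + 2` for locally
sparse graphs: if `G` or `Gᶜ` has degeneracy `k ≥ k₀` and any `s` vertices of its `k`-core have at
most `k / M` common neighbours there, then even `mr₊(G) + mr₊(Gᶜ) ≤ n - a k`. Hence for graphs
without `K_{s,s}`: at most `n + C` always, and at most `n - a k` if the degeneracy is `k ≥ C`.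
-/

set_option autoImplicit false

open Matrix

namespace Pool.Agent.Results.MP_a2d8aa_co.LocallySparse

open Pool.Agent.Lib.MP_a2d8aa_co.Rg
open Pool.Agent.Lib.MP_a2d8aa_co.Kf

theorem ncard_eq {n : ℕ} (H : SimpleGraph (Fin n)) (W : Finset (Fin n)) (u : Fin n) :
    {v | v ∈ W ∧ H.Adj u v}.ncard = dg H W u := by
  unfold dg
  rw [← Set.ncard_coe_finset]
  congr 1
  ext v
  simp [mem_nb]

theorem few_of_ncard {n : ℕ} {H : SimpleGraph (Fin n)} {U : Finset (Fin n)} {s M k : ℕ}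
    (h : ∀ X : Finset (Fin n), X ⊆ U → X.card = s →
      M * {w | w ∈ U ∧ ∀ x ∈ X, H.Adj x w}.ncard ≤ k) : Few H U s M k := by
  intro X hX hs
  have h1 := h X hX hs
  rw [← Set.ncard_coe_finset]
  refine le_trans (le_of_eq ?_) h1
  congr 2
  ext v
  simp

theorem psdRank_of_hasMin {n d : ℕ} {G : SimpleGraph (Fin n)} (h : HasMin G d) :
    ∃ r : ℕ, r + d = n ∧ PsdRank G r := by
  obtain ⟨h1, h2⟩ := h
  refine ⟨n - (d + 1) + 1, by omega, ?_⟩
  have h3 := PsdRank.of_reg h2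
  have h4 : (coOn Finset.univ G)ᶜ = G := by
    ext i j
    rw [SimpleGraph.compl_adj]
    constructor
    · rintro ⟨h5, h6⟩
      by_contra h7
      exact h6 ⟨Finset.mem_univ _, Finset.mem_univ _, h5, h7⟩
    · intro h5
      exact ⟨h5.ne, fun h6 => h6.2.2.2 h5⟩
  rwa [h4] at h3

/-- from a large minor of `H` and the degeneracy of `H` -/
theorem both {n r k : ℕ} (H : SimpleGraph (Fin n)) (h : HasMin H (r * k))
    (hdeg : ∀ W : Finset (Fin n), W.Nonempty → ∃ u ∈ W, {v | v ∈ W ∧ H.Adj u v}.ncard ≤ k) :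
    ∃ p q : ℕ, p + q + r * k ≤ n + 2 * k + 1 ∧ PsdRank H p ∧ PsdRank Hᶜ q := by
  classical
  obtain ⟨p, hp, hP⟩ := psdRank_of_hasMin h
  refine ⟨p, 2 * k + 1, by omega, hP, PsdRank.of_degen H k (fun W hW => ?_)⟩
  obtain ⟨u, hu, h1⟩ := hdeg W hW
  refine ⟨u, hu, le_trans (le_of_eq ?_) h1⟩
  rw [← Set.ncard_coe_finset]
  congr 1
  ext v
  simp

/-- every graph has a degeneracy -/
theorem exists_degeneracy {n : ℕ} (H : SimpleGraph (Fin n)) (hn : 0 < n) :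
    ∃ D : ℕ, (∀ W : Finset (Fin n), W.Nonempty → ∃ u ∈ W, dg H W u ≤ D) ∧
      ∃ U : Finset (Fin n), U.Nonempty ∧ ∀ u ∈ U, D ≤ dg H U u := by
  classical
  have : Nonempty (Fin n) := ⟨⟨0, hn⟩⟩
  have hex : ∃ D : ℕ, ∀ W : Finset (Fin n), W.Nonempty → ∃ u ∈ W, dg H W u ≤ D :=
    ⟨n, fun W ⟨u, hu⟩ => ⟨u, hu, by
      have h1 := Finset.card_le_univ (nb H W u)
      rwa [Fintype.card_fin] at h1⟩⟩
  refine ⟨Nat.find hex, Nat.find_spec hex, ?_⟩
  rcases Nat.eq_zero_or_pos (Nat.find hex) with h0 | h0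
  · refine ⟨Finset.univ, Finset.univ_nonempty, fun u _ => ?_⟩
    rw [h0]; exact Nat.zero_le _
  · have h1 := Nat.find_min hex (Nat.sub_one_lt_of_lt h0)
    push Not at h1
    obtain ⟨W, hW, h2⟩ := h1
    refine ⟨W, hW, fun u hu => ?_⟩
    have := h2 u hu
    omega

theorem result :
    (∀ s a : ℕ, 1 ≤ s → ∃ M k₀ : ℕ, ∀ (n : ℕ) (G H : SimpleGraph (Fin n)), (H = G ∨ H = Gᶜ) →
      ∀ (k : ℕ) (U : Finset (Fin n)), k₀ ≤ k → U.Nonempty →
        (∀ u ∈ U, k ≤ {v | v ∈ U ∧ H.Adj u v}.ncard) →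
        (∀ W : Finset (Fin n), W.Nonempty → ∃ u ∈ W, {v | v ∈ W ∧ H.Adj u v}.ncard ≤ k) →
        (∀ X : Finset (Fin n), X ⊆ U → X.card = s →
          M * {w | w ∈ U ∧ ∀ x ∈ X, H.Adj x w}.ncard ≤ k) →
        ∃ A B : Matrix (Fin n) (Fin n) ℝ,
          A.PosSemidef ∧ (∀ i j, i ≠ j → (A i j ≠ 0 ↔ G.Adj i j)) ∧
          B.PosSemidef ∧ (∀ i j, i ≠ j → (B i j ≠ 0 ↔ Gᶜ.Adj i j)) ∧
          A.rank + B.rank + a * k ≤ n) ∧
    (∀ s a : ℕ, ∃ C : ℕ, ∀ (n : ℕ) (G H : SimpleGraph (Fin n)), (H = G ∨ H = Gᶜ) →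
      (completeBipartiteGraph (Fin s) (Fin s)).Free H →
        ∃ A B : Matrix (Fin n) (Fin n) ℝ,
          A.PosSemidef ∧ (∀ i j, i ≠ j → (A i j ≠ 0 ↔ G.Adj i j)) ∧
          B.PosSemidef ∧ (∀ i j, i ≠ j → (B i j ≠ 0 ↔ Gᶜ.Adj i j)) ∧
          A.rank + B.rank ≤ n + C ∧
          ∀ (k : ℕ) (U : Finset (Fin n)), C ≤ k → U.Nonempty →
            (∀ u ∈ U, k ≤ {v | v ∈ U ∧ H.Adj u v}.ncard) → A.rank + B.rank + a * k ≤ n) := by
  have hswap : ∀ {n : ℕ} {G H : SimpleGraph (Fin n)}, (H = G ∨ H = Gᶜ) → ∀ {N : ℕ},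
      (∃ p q : ℕ, p + q + N ≤ n ∧ PsdRank H p ∧ PsdRank Hᶜ q) →
      ∃ A B : Matrix (Fin n) (Fin n) ℝ,
          A.PosSemidef ∧ (∀ i j, i ≠ j → (A i j ≠ 0 ↔ G.Adj i j)) ∧
          B.PosSemidef ∧ (∀ i j, i ≠ j → (B i j ≠ 0 ↔ Gᶜ.Adj i j)) ∧
          A.rank + B.rank + N ≤ n := by
    rintro n G H hGH N ⟨p, q, hpq, ⟨A, hA1, hA2, hA3⟩, ⟨B, hB1, hB2, hB3⟩⟩
    rcases hGH with rfl | rfl
    · exact ⟨A, B, hA1, hA2, hB1, hB2, by omega⟩
    · refine ⟨B, A, hB1, ?_, hA1, hA2, by omega⟩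
      rwa [compl_compl] at hB2
  have hswap' : ∀ {n : ℕ} {G H : SimpleGraph (Fin n)}, (H = G ∨ H = Gᶜ) → ∀ {N : ℕ},
      (∃ p q : ℕ, p + q ≤ N ∧ PsdRank H p ∧ PsdRank Hᶜ q) →
      ∃ A B : Matrix (Fin n) (Fin n) ℝ,
          A.PosSemidef ∧ (∀ i j, i ≠ j → (A i j ≠ 0 ↔ G.Adj i j)) ∧
          B.PosSemidef ∧ (∀ i j, i ≠ j → (B i j ≠ 0 ↔ Gᶜ.Adj i j)) ∧
          A.rank + B.rank ≤ N := by
    rintro n G H hGH N ⟨p, q, hpq, ⟨A, hA1, hA2, hA3⟩, ⟨B, hB1, hB2, hB3⟩⟩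
    rcases hGH with rfl | rfl
    · exact ⟨A, B, hA1, hA2, hB1, hB2, by omega⟩
    · refine ⟨B, A, hB1, ?_, hA1, hA2, by omega⟩
      rwa [compl_compl] at hB2
  refine ⟨fun s a hs => ?_, fun s a => ?_⟩
  · obtain ⟨M, k₀, h⟩ := main_comb s (a + 3) hs (by omega)
    refine ⟨M, k₀ + 1, fun n G H hGH k U hk hU hmin hdeg hfew => ?_⟩
    refine hswap hGH ?_
    have hm : HasMin H ((a + 3) * k) := h n k H U (by omega) hU
      (fun u hu => by rw [← ncard_eq]; exact hmin u hu)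
      (fun W _ hW => by
        obtain ⟨u, hu, h1⟩ := hdeg W hW
        exact ⟨u, hu, by rw [← ncard_eq]; exact h1⟩)
      (few_of_ncard hfew)
    obtain ⟨p, q, hpq, hP, hQ⟩ := both H hm hdeg
    refine ⟨p, q, ?_, hP, hQ⟩
    have e : (a + 3) * k = a * k + 3 * k := by ring
    omega
  · obtain ⟨M, k₀, h⟩ := main_comb (s + 1) (a + 3) (by omega) (by omega)
    refine ⟨M * (s + 1) + k₀ + 2, fun n G H hGH hfree => ?_⟩
    rcases Nat.eq_zero_or_pos n with hn | hn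
    · subst hn
      obtain ⟨A, B, h1, h2, h3, h4, h5⟩ := hswap' (G := G) (H := H) hGH (N := 0)
        ⟨0, 0, le_rfl, PsdRank.of_rep (fun u => u.elim0) (fun u => u.elim0),
          PsdRank.of_rep (fun u => u.elim0) (fun u => u.elim0)⟩
      refine ⟨A, B, h1, h2, h3, h4, by omega, fun k U _ hU => ?_⟩
      obtain ⟨u, -⟩ := hU
      exact u.elim0
    obtain ⟨D, hD, U₀, hU₀, hmin⟩ := exists_degeneracy H hn
    have hdeg : ∀ W : Finset (Fin n), W.Nonempty →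
        ∃ u ∈ W, {v | v ∈ W ∧ H.Adj u v}.ncard ≤ D := by
      intro W hW
      obtain ⟨u, hu, h1⟩ := hD W hW
      exact ⟨u, hu, by rw [ncard_eq]; exact h1⟩
    have hkD : ∀ (k : ℕ) (U : Finset (Fin n)), U.Nonempty →
        (∀ u ∈ U, k ≤ {v | v ∈ U ∧ H.Adj u v}.ncard) → k ≤ D := by
      intro k U hU h1
      obtain ⟨u, hu, h2⟩ := hdeg U hU
      exact (h1 u hu).trans h2
    by_cases hbig : M * (s + 1) + k₀ + 2 ≤ D
    · have hfree' : (completeBipartiteGraph (Fin (s + 1)) (Fin (s + 1))).Free H := by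
        intro hc
        apply hfree
        refine SimpleGraph.IsContained.trans ?_ hc
        refine ⟨⟨⟨Sum.map Fin.castSucc Fin.castSucc, ?_⟩, ?_⟩⟩
        · intro x y hxy
          rcases x with x | x <;> rcases y with y | y <;> simp_all
        · exact Sum.map_injective.2
            ⟨Fin.castSucc_injective s, Fin.castSucc_injective s⟩
      have hm : HasMin H ((a + 3) * D) := h n D H U₀ (by omega) hU₀ hmin
        (fun W _ hW => hD W hW) (few_of_free H (s + 1) M D U₀ hfree' (by omega))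
      obtain ⟨p, q, hpq, hP, hQ⟩ := both H hm hdeg
      have e : (a + 3) * D = a * D + 3 * D := by ring
      obtain ⟨A, B, h1, h2, h3, h4, h5⟩ := hswap hGH (N := a * D)
        ⟨p, q, by omega, hP, hQ⟩
      refine ⟨A, B, h1, h2, h3, h4, by omega, fun k U hk hU hmin' => ?_⟩
      have h6 := Nat.mul_le_mul_left a (hkD k U hU hmin')
      omega
    · classical
      have e : ∀ (W : Finset (Fin n)) (u : Fin n),
          (W.filter (fun v => H.Adj u v)).card = dg H W u := by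
        intro W u
        unfold dg nb
        congr 1
      have hQ : PsdRank Hᶜ (2 * D + 1) := PsdRank.of_degen H D (fun W hW => by
        obtain ⟨u, hu, h1⟩ := hD W hW
        exact ⟨u, hu, (e W u).trans_le h1⟩)
      have hP : PsdRank H (n - D) := PsdRank.of_sub H hU₀ D (fun u hu =>
        (hmin u hu).trans_eq (e U₀ u).symm)
      have hDn : D ≤ n := by
        obtain ⟨u, hu⟩ := hU₀
        have h1 := Finset.card_le_univ (nb H U₀ u)
        rw [Fintype.card_fin] at h1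
        exact (hmin u hu).trans h1
      obtain ⟨A, B, h1, h2, h3, h4, h5⟩ := hswap' hGH
        (N := n + (M * (s + 1) + k₀ + 2)) ⟨n - D, 2 * D + 1, by omega, hP, hQ⟩
      refine ⟨A, B, h1, h2, h3, h4, h5, fun k U hk hU hmin' => ?_⟩
      have h6 := hkD k U hU hmin'
      omega

end Pool.Agent.Results.MP_a2d8aa_co.LocallySparse
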