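import Mathlib
import Pool.Agent.Lib.MP_a2d8aa_co.Rk.Sub

/-!
A universal bound for the positive semidefinite graph complement conjecture:
`mr₊(G) + mr₊(Gᶜ) ≤ (4 n + 2) / 3` for every graph `G` on `n` vertices, together with
`mr₊(G) ≤ n - k` whenever `G` has an induced subgraph of minimum degree at least `k`, and
`mr₊(Gᶜ) ≤ 2 D + 1` for every `D`-degenerate graph `G`.
-/

set_option autoImplicit false

open Matrix

namespace Pool.Agent.Results.MP_a2d8aa_co.Universal

open Pool.Agent.Lib.MP_a2d8aa_co.Rk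

theorem aleph0_lt_real : Cardinal.aleph0 < Cardinal.mk ℝ := by
  rw [Cardinal.mk_real]; exact Cardinal.aleph0_lt_continuum

/-- a faithful orthogonal representation in `ℝ^d` gives a matrix of rank at most `d` -/
theorem psd_of_rep {n d : ℕ} (G : SimpleGraph (Fin n)) (c : Fin n → Fin d → ℝ)
    (hc : ∀ u v, u ≠ v → (c u ⬝ᵥ c v ≠ 0 ↔ G.Adj u v)) :
    ∃ A : Matrix (Fin n) (Fin n) ℝ, A.PosSemidef ∧
      (∀ i j, i ≠ j → (A i j ≠ 0 ↔ G.Adj i j)) ∧ A.rank ≤ d := by
  refine ⟨(Matrix.of c) * (Matrix.of c)ᴴ, Matrix.posSemidef_self_mul_conjTranspose _, ?_, ?_⟩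
  · intro i j hij
    have h1 : ((Matrix.of c) * (Matrix.of c)ᴴ) i j = c i ⬝ᵥ c j := by
      rw [Matrix.mul_apply]
      simp only [Matrix.of_apply, Matrix.conjTranspose_apply, star_trivial, dotProduct]
    rw [h1]
    exact hc i j hij
  · have h1 := Matrix.rank_mul_le_left (Matrix.of c) (Matrix.of c)ᴴ
    have h2 := Matrix.rank_le_width (Matrix.of c)
    omega

/-- a matrix of minimum rank -/
theorem exists_min {n : ℕ} (G : SimpleGraph (Fin n)) :
    ∃ A : Matrix (Fin n) (Fin n) ℝ, A.PosSemidef ∧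
      (∀ i j, i ≠ j → (A i j ≠ 0 ↔ G.Adj i j)) ∧
      ∀ C : Matrix (Fin n) (Fin n) ℝ, C.PosSemidef →
        (∀ i j, i ≠ j → (C i j ≠ 0 ↔ G.Adj i j)) → A.rank ≤ C.rank := by
  classical
  have hex : ∃ r : ℕ, ∃ A : Matrix (Fin n) (Fin n) ℝ, A.PosSemidef ∧
      (∀ i j, i ≠ j → (A i j ≠ 0 ↔ G.Adj i j)) ∧ A.rank = r := by
    obtain ⟨c, hc⟩ : ∃ c : Fin n → Fin n → ℝ, ∀ u v, u ≠ v → (c u ⬝ᵥ c v ≠ 0 ↔ G.Adj u v) := by
      rcases n with _ | n
      · exact ⟨fun u => u.elim0, fun u => u.elim0⟩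
      · exact exists_faithful_sub G aleph0_lt_real (U := Finset.univ) Finset.univ_nonempty 0
          (n + 1) (fun u _ => Nat.zero_le _) (by rw [Fintype.card_fin, Nat.add_zero])
    obtain ⟨A, h1, h2, -⟩ := psd_of_rep G c hc
    exact ⟨A.rank, A, h1, h2, rfl⟩
  obtain ⟨A, h1, h2, h3⟩ := Nat.find_spec hex
  exact ⟨A, h1, h2, fun C hC1 hC2 => h3 ▸ Nat.find_min' hex ⟨C, hC1, hC2, rfl⟩⟩

/-- the bound by the minimum degree of an induced subgraph -/
theorem sub_bound {n : ℕ} (G : SimpleGraph (Fin n)) [DecidableRel G.Adj]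
    {A : Matrix (Fin n) (Fin n) ℝ}
    (hmin : ∀ C : Matrix (Fin n) (Fin n) ℝ, C.PosSemidef →
      (∀ i j, i ≠ j → (C i j ≠ 0 ↔ G.Adj i j)) → A.rank ≤ C.rank)
    (U : Finset (Fin n)) (hne : U.Nonempty) (k : ℕ)
    (hU : ∀ u ∈ U, k ≤ (U.filter (fun v => G.Adj u v)).card) : A.rank + k ≤ n := by
  have hk : k ≤ n := by
    obtain ⟨u, hu⟩ := hne
    have h1 := Finset.card_le_univ (U.filter (fun v => G.Adj u v))
    rw [Fintype.card_fin] at h1
    exact (hU u hu).trans h1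
  obtain ⟨c, hc⟩ := exists_faithful_sub G aleph0_lt_real hne k (n - k) hU
    (by rw [Fintype.card_fin]; omega)
  obtain ⟨C, h1, h2, h3⟩ := psd_of_rep G c hc
  have h4 := hmin C h1 h2
  omega

/-- the bound for graphs whose complement is degenerate -/
theorem degen_bound {n : ℕ} (G : SimpleGraph (Fin n)) [DecidableRel G.Adj]
    {A : Matrix (Fin n) (Fin n) ℝ}
    (hmin : ∀ C : Matrix (Fin n) (Fin n) ℝ, C.PosSemidef →
      (∀ i j, i ≠ j → (C i j ≠ 0 ↔ Gᶜ.Adj i j)) → A.rank ≤ C.rank)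
    (D : ℕ) (hdeg : ∀ W : Finset (Fin n), W.Nonempty →
      ∃ u ∈ W, (W.filter (fun v => G.Adj u v)).card ≤ D) : A.rank ≤ 2 * D + 1 := by
  obtain ⟨c, hc⟩ := exists_faithful_degen Gᶜ aleph0_lt_real D (fun W hW => by
    obtain ⟨u, hu, h⟩ := hdeg W hW
    refine ⟨u, hu, (Finset.card_le_card ?_).trans h⟩
    intro v hv
    rw [Finset.mem_filter, Finset.mem_erase] at hv
    rw [Finset.mem_filter]
    refine ⟨hv.1.2, ?_⟩
    by_contra h3
    exact hv.2 ((SimpleGraph.compl_adj G u v).2 ⟨hv.1.1.symm, h3⟩))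
  obtain ⟨C, h1, h2, h3⟩ := psd_of_rep Gᶜ c hc
  exact (hmin C h1 h2).trans h3

/-- every graph has a degeneracy: a number `D` such that `G` is `D`-degenerate and has a
nonempty induced subgraph of minimum degree at least `D` -/
theorem exists_degeneracy {n : ℕ} (hn : 0 < n) (G : SimpleGraph (Fin n)) [DecidableRel G.Adj] :
    ∃ D : ℕ, (∀ W : Finset (Fin n), W.Nonempty →
        ∃ u ∈ W, (W.filter (fun v => G.Adj u v)).card ≤ D) ∧
      ∃ U : Finset (Fin n), U.Nonempty ∧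
        ∀ u ∈ U, D ≤ (U.filter (fun v => G.Adj u v)).card := by
  classical
  have : Nonempty (Fin n) := ⟨⟨0, hn⟩⟩
  have hex : ∃ D : ℕ, ∀ W : Finset (Fin n), W.Nonempty →
      ∃ u ∈ W, (W.filter (fun v => G.Adj u v)).card ≤ D :=
    ⟨n, fun W ⟨u, hu⟩ => ⟨u, hu, by
      have h1 := Finset.card_le_univ (W.filter (fun v => G.Adj u v))
      rwa [Fintype.card_fin] at h1⟩⟩
  refine ⟨Nat.find hex, Nat.find_spec hex, ?_⟩
  rcases Nat.eq_zero_or_pos (Nat.find hex) with h0 | h0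
  · refine ⟨Finset.univ, Finset.univ_nonempty, fun u _ => ?_⟩
    rw [h0]; exact Nat.zero_le _
  · have h1 := Nat.find_min hex (Nat.sub_one_lt_of_lt h0)
    push Not at h1
    obtain ⟨W, hW, h2⟩ := h1
    refine ⟨W, hW, fun u hu => ?_⟩
    have := h2 u hu
    omega

/-- For every graph `G` on `n` vertices there are real positive semidefinite matrices `A`, `B`
with graphs `G` and `Gᶜ` (of minimum rank) satisfying the seven bounds below. -/
theorem result :
    ∀ (n : ℕ) (G : SimpleGraph (Fin n)) [DecidableRel G.Adj],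
      ∃ A B : Matrix (Fin n) (Fin n) ℝ,
        A.PosSemidef ∧ (∀ i j, i ≠ j → (A i j ≠ 0 ↔ G.Adj i j)) ∧
        B.PosSemidef ∧ (∀ i j, i ≠ j → (B i j ≠ 0 ↔ Gᶜ.Adj i j)) ∧
        (∀ (U : Finset (Fin n)) (k : ℕ), U.Nonempty →
          (∀ u ∈ U, k ≤ (U.filter (fun v => G.Adj u v)).card) → A.rank + k ≤ n) ∧
        (∀ (U : Finset (Fin n)) (k : ℕ), U.Nonempty →
          (∀ u ∈ U, k ≤ (U.filter (fun v => Gᶜ.Adj u v)).card) → B.rank + k ≤ n) ∧
        (∀ D : ℕ, (∀ W : Finset (Fin n), W.Nonempty →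
          ∃ u ∈ W, (W.filter (fun v => Gᶜ.Adj u v)).card ≤ D) → A.rank ≤ 2 * D + 1) ∧
        (∀ D : ℕ, (∀ W : Finset (Fin n), W.Nonempty →
          ∃ u ∈ W, (W.filter (fun v => G.Adj u v)).card ≤ D) → B.rank ≤ 2 * D + 1) ∧
        (∀ D : ℕ, ((∀ W : Finset (Fin n), W.Nonempty →
            ∃ u ∈ W, (W.filter (fun v => G.Adj u v)).card ≤ D) ∨
          (∀ W : Finset (Fin n), W.Nonempty →
            ∃ u ∈ W, (W.filter (fun v => Gᶜ.Adj u v)).card ≤ D)) →
          A.rank + B.rank ≤ n + 1 + D) ∧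
        3 * (A.rank + B.rank) ≤ 4 * n + 2 ∧
        A.rank + B.rank + G.minDegree ≤ n + 1 + G.maxDegree := by
  intro n G _
  classical
  obtain ⟨A, hA, hAG, hAm⟩ := exists_min G
  obtain ⟨B, hB, hBG, hBm⟩ := exists_min Gᶜ
  have hA1 : ∀ (U : Finset (Fin n)) (k : ℕ), U.Nonempty →
      (∀ u ∈ U, k ≤ (U.filter (fun v => G.Adj u v)).card) → A.rank + k ≤ n :=
    fun U k hne hU => sub_bound G hAm U hne k hU
  have hB1 : ∀ (U : Finset (Fin n)) (k : ℕ), U.Nonempty →
      (∀ u ∈ U, k ≤ (U.filter (fun v => Gᶜ.Adj u v)).card) → B.rank + k ≤ n :=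
    fun U k hne hU => sub_bound Gᶜ hBm U hne k hU
  have hB2 : ∀ D : ℕ, (∀ W : Finset (Fin n), W.Nonempty →
      ∃ u ∈ W, (W.filter (fun v => G.Adj u v)).card ≤ D) → B.rank ≤ 2 * D + 1 :=
    fun D hD => degen_bound G hBm D hD
  have hA2 : ∀ D : ℕ, (∀ W : Finset (Fin n), W.Nonempty →
      ∃ u ∈ W, (W.filter (fun v => Gᶜ.Adj u v)).card ≤ D) → A.rank ≤ 2 * D + 1 := by
    intro D hD
    refine degen_bound Gᶜ ?_ D hD
    intro C hC1 hC2
    refine hAm C hC1 ?_
    intro i j hij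
    rw [hC2 i j hij, compl_compl]
  refine ⟨A, B, hA, hAG, hB, hBG, hA1, hB1, hA2, hB2, ?_, ?_, ?_⟩
  · intro D hD
    rcases Nat.eq_zero_or_pos n with hn | hn
    · have h1 := A.rank_le_width
      have h2 := B.rank_le_width
      omega
    · obtain ⟨D1, h1, U1, hU1, h1'⟩ := exists_degeneracy hn G
      obtain ⟨D2, h2, U2, hU2, h2'⟩ := exists_degeneracy hn Gᶜ
      have e1 := hA1 U1 D1 hU1 h1'
      have e2 := hB1 U2 D2 hU2 h2'
      have e3 := hA2 D2 h2
      have e4 := hB2 D1 h1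
      rcases hD with hD | hD
      · obtain ⟨u, hu, h⟩ := hD U1 hU1
        have := h1' u hu
        omega
      · obtain ⟨u, hu, h⟩ := hD U2 hU2
        have := h2' u hu
        omega
  · rcases Nat.eq_zero_or_pos n with hn | hn
    · have h1 := A.rank_le_width
      have h2 := B.rank_le_width
      omega
    · obtain ⟨D1, h1, U1, hU1, h1'⟩ := exists_degeneracy hn G
      obtain ⟨D2, h2, U2, hU2, h2'⟩ := exists_degeneracy hn Gᶜ
      have e1 := hA1 U1 D1 hU1 h1'
      have e2 := hB1 U2 D2 hU2 h2'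
      have e3 := hA2 D2 h2
      have e4 := hB2 D1 h1
      omega
  · rcases Nat.eq_zero_or_pos n with hn | hn
    · subst hn
      have h1 := A.rank_le_width
      have h2 := B.rank_le_width
      have h3 : G.minDegree = 0 := by
        rw [SimpleGraph.minDegree_of_subsingleton]
      omega
    · have : Nonempty (Fin n) := ⟨⟨0, hn⟩⟩
      have e1 := hA1 Finset.univ G.minDegree Finset.univ_nonempty (fun u _ => by
        have h1 := G.minDegree_le_degree u
        rwa [← SimpleGraph.card_neighborFinset_eq_degree,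
          SimpleGraph.neighborFinset_eq_filter] at h1)
      have e2 := hB1 Finset.univ (n - 1 - G.maxDegree) Finset.univ_nonempty (fun u _ => by
        have h1 := G.degree_le_maxDegree u
        have h2 : Gᶜ.degree u = Fintype.card (Fin n) - 1 - G.degree u :=
          SimpleGraph.degree_compl G u
        rw [Fintype.card_fin] at h2
        rw [← SimpleGraph.card_neighborFinset_eq_degree,
          SimpleGraph.neighborFinset_eq_filter] at h2
        omega)
      omega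

end Pool.Agent.Results.MP_a2d8aa_co.Universal
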